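import Pool.Agent.Helper89.TT.Basic

set_option autoImplicit false

open Finset

namespace Pool.Agent.Helper89.TT

theorem nb_key {a b : ℕ} (ha : 1 ≤ a) (h : IsSquare (a ^ 2 + b ^ 2)) :
    ∃ δ : ℕ, 0 < δ ∧ Nat.sqrt (a ^ 2 + b ^ 2) - b = δ ∧ a ^ 2 = δ * (2 * b + δ) := by
  obtain ⟨c, hc⟩ := h
  have hs : Nat.sqrt (a ^ 2 + b ^ 2) = c := by rw [hc]; exact Nat.sqrt_eq c
  have ha2 : 1 ≤ a ^ 2 := Nat.one_le_pow _ _ ha
  have hbc : b < c := by
    by_contra hcon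
    have h1 : c * c ≤ b * b := Nat.mul_le_mul (not_lt.1 hcon) (not_lt.1 hcon)
    have h2 : b ^ 2 = b * b := pow_two b
    omega
  refine ⟨c - b, Nat.sub_pos_of_lt hbc, by rw [hs], ?_⟩
  obtain ⟨d, rfl⟩ := Nat.exists_eq_add_of_lt hbc
  have e : b + d + 1 - b = d + 1 := by omega
  rw [e]
  have h3 : a ^ 2 + b ^ 2 = (b + d + 1) * (b + d + 1) := hc
  have h4 : (b + d + 1) * (b + d + 1) = (d + 1) * (2 * b + (d + 1)) + b ^ 2 := by ring
  omega

theorem st_NB (hDV : ST_DV) : ST_NB := by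
  intro ε hε
  obtain ⟨C, hC, h⟩ := hDV ε hε 2
  refine ⟨C, hC, fun N hN a ha haN S hS => ?_⟩
  have hcard : S.card ≤ (a ^ 2).divisors.card := by
    refine Finset.card_le_card_of_injOn (fun b => Nat.sqrt (a ^ 2 + b ^ 2) - b) ?_ ?_
    · intro b hb
      obtain ⟨δ, h1, h2, h3⟩ := nb_key ha (hS b hb).2.2
      have h4 : Nat.sqrt (a ^ 2 + b ^ 2) - b ∈ (a ^ 2).divisors := by
        rw [h2, Nat.mem_divisors]
        exact ⟨⟨_, h3⟩, by positivity⟩
      exact h4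
    · intro b hb b' hb' e
      obtain ⟨δ, h1, h2, h3⟩ := nb_key ha (hS b hb).2.2
      obtain ⟨δ', h1', h2', h3'⟩ := nb_key ha (hS b' hb').2.2
      have e1 : δ = δ' := by
        rw [← h2, ← h2']
        exact e
      subst e1
      have e2 : δ * (2 * b + δ) = δ * (2 * b' + δ) := by rw [← h3, ← h3']
      have e3 := Nat.eq_of_mul_eq_mul_left h1 e2
      omega
  have h2 : a ^ 2 ≤ 2 * N ^ 2 := by
    have : a ^ 2 ≤ N ^ 2 := Nat.pow_le_pow_left haN 2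
    omega
  have h3 := h N hN (a ^ 2) (Nat.one_le_pow _ _ ha) h2
  have h4 : (S.card : ℝ) ≤ ((a ^ 2).divisors.card : ℝ) := by exact_mod_cast hcard
  linarith

end Pool.Agent.Helper89.TT
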